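import Pool.Agent.helper23.CS.Spec

/-! Row cs:SL (helper17) -/

open Finset Filter Topology MeasureTheory

namespace CS

/-- the weight of the expansion -/
noncomputable def SL_w {ι : Type} [DecidableEq ι] (b : ℝ) (E I F C : Finset ι) : ℝ :=
  (∏ e ∈ E \ I, if e ∈ F then Real.sinh b else Real.cosh b) *
    ∏ e ∈ I, if e ∈ F then (if e ∈ C then Real.sinh (2 * b) else 0) else (if e ∈ C then Real.cosh (2 * b) - 1 else 1)

theorem SL_w_nonneg {ι : Type} [DecidableEq ι] (b : ℝ) (hb : 0 ≤ b) (E I F C : Finset ι) : 0 ≤ SL_w b E I F C := by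
  unfold SL_w
  have h1 : 0 ≤ Real.sinh b := Real.sinh_nonneg_iff.mpr hb
  have h2 : 0 ≤ Real.sinh (2 * b) := Real.sinh_nonneg_iff.mpr (by linarith)
  have h3 : 0 < Real.cosh b := Real.cosh_pos b
  have h4 : 1 ≤ Real.cosh (2 * b) := Real.one_le_cosh _
  refine mul_nonneg (Finset.prod_nonneg fun e _ => ?_) (Finset.prod_nonneg fun e _ => ?_)
  · split_ifs
    · exact h1
    · exact h3.le
  · split_ifs
    · exact h2
    · exact le_refl _
    · linarith
    · exact zero_le_one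

theorem SL_w_zero {ι : Type} [DecidableEq ι] (b : ℝ) (E I F C : Finset ι) (h : ¬ F ∩ I ⊆ C) : SL_w b E I F C = 0 := by
  unfold SL_w
  rw [Finset.not_subset] at h
  obtain ⟨e, he, hC⟩ := h
  rw [Finset.mem_inter] at he
  refine mul_eq_zero_of_right _ (Finset.prod_eq_zero he.2 ?_)
  rw [if_pos he.1, if_neg hC]

theorem SL_w_insert {ι : Type} [DecidableEq ι] (b : ℝ) (E I F C : Finset ι) (e : ι) (he : e ∈ E \ I) (hF : e ∉ F) :
    SL_w b E I (insert e F) C = Real.tanh b * SL_w b E I F C := by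
  unfold SL_w
  have heI : e ∉ I := (Finset.mem_sdiff.mp he).2
  have h1 : ∏ e' ∈ I, (if e' ∈ insert e F then (if e' ∈ C then Real.sinh (2 * b) else 0) else (if e' ∈ C then Real.cosh (2 * b) - 1 else 1))
      = ∏ e' ∈ I, (if e' ∈ F then (if e' ∈ C then Real.sinh (2 * b) else 0) else (if e' ∈ C then Real.cosh (2 * b) - 1 else 1)) := by
    refine Finset.prod_congr rfl fun e' he' => ?_
    have hne : e' ≠ e := fun h => heI (h ▸ he')
    have : (e' ∈ insert e F) ↔ e' ∈ F := by rw [Finset.mem_insert]; exact ⟨fun h => h.resolve_left hne, Or.inr⟩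
    simp only [this]
  rw [h1, ← mul_assoc]
  congr 1
  rw [← Finset.mul_prod_erase _ _ he, ← Finset.mul_prod_erase _ _ he, if_pos (Finset.mem_insert_self _ _), if_neg hF]
  have h2 : ∏ e' ∈ (E \ I).erase e, (if e' ∈ insert e F then Real.sinh b else Real.cosh b)
      = ∏ e' ∈ (E \ I).erase e, (if e' ∈ F then Real.sinh b else Real.cosh b) := by
    refine Finset.prod_congr rfl fun e' he' => ?_
    have hne : e' ≠ e := Finset.ne_of_mem_erase he'
    have : (e' ∈ insert e F) ↔ e' ∈ F := by rw [Finset.mem_insert]; exact ⟨fun h => h.resolve_left hne, Or.inr⟩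
    simp only [this]
  rw [h2, Real.tanh_eq_sinh_div_cosh]
  have hc : Real.cosh b ≠ 0 := (Real.cosh_pos b).ne'
  field_simp

theorem SL_sum_insert {ι : Type} [DecidableEq ι] (E : Finset ι) (e : ι) (he : e ∈ E) (h : Finset ι → ℝ) :
    ∑ F ∈ E.powerset.filter (fun F => e ∉ F), h (insert e F) = ∑ F ∈ E.powerset.filter (fun F => e ∈ F), h F := by
  refine Finset.sum_nbij' (fun F => insert e F) (fun F => F.erase e) ?_ ?_ ?_ ?_ ?_
  · intro F hF
    simp only [Finset.mem_filter, Finset.mem_powerset] at hF ⊢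
    exact ⟨Finset.insert_subset he hF.1, Finset.mem_insert_self _ _⟩
  · intro F hF
    simp only [Finset.mem_filter, Finset.mem_powerset] at hF ⊢
    exact ⟨(Finset.erase_subset _ _).trans hF.1, Finset.notMem_erase _ _⟩
  · intro F hF
    simp only [Finset.mem_filter] at hF
    exact Finset.erase_insert hF.2
  · intro F hF
    simp only [Finset.mem_filter] at hF
    exact Finset.insert_erase hF.2
  · intro F _; rfl

section
variable {V ι : Type} [Fintype V] [DecidableEq V] [DecidableEq ι]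

/-- sum of `∏ mm * u` -/
noncomputable def SL_U (G : MG V ι) (F : Finset ι) (u : (V → Bool) → ℝ) : ℝ := ∑ σ : V → Bool, (∏ e ∈ F, mm G e σ) * u σ

theorem SL_prod (G : MG V ι) (b : ℝ) (E I : Finset ι) (f g : (V → Bool) → ℝ) :
    Zf G b E f * Zf G b I g = ∑ σ : V → Bool, ∑ η : V → Bool,
      Real.exp (b * ∑ e ∈ E, mm G e σ) * Real.exp (b * ∑ e ∈ I, mm G e (mc σ η)) * (f σ * g (mc σ η)) := by
  unfold Zf
  rw [Finset.sum_mul_sum]
  refine Finset.sum_congr rfl fun σ _ => ?_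
  rw [← sum_mc σ (fun σ' => Real.exp (b * ∑ e ∈ E, mm G e σ) * f σ * (Real.exp (b * ∑ e ∈ I, mm G e σ') * g σ'))]
  exact Finset.sum_congr rfl fun η _ => by ring

theorem SL_expand (hSEXP : SEXP_stmt) (G : MG V ι) (b : ℝ) (E I : Finset ι) (hb : 0 ≤ b) (hI : I ⊆ E) (u v : (V → Bool) → ℝ) :
    ∑ σ : V → Bool, ∑ η : V → Bool,
      Real.exp (b * ∑ e ∈ E, mm G e σ) * Real.exp (b * ∑ e ∈ I, mm G e (mc σ η)) * (u σ * v η) =
    ∑ F ∈ E.powerset, ∑ C ∈ I.powerset, SL_w b E I F C * (SL_U G F u * KK G C v) := by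
  have h1 : ∀ σ η : V → Bool,
      Real.exp (b * ∑ e ∈ E, mm G e σ) * Real.exp (b * ∑ e ∈ I, mm G e (mc σ η)) * (u σ * v η) =
      ∑ F ∈ E.powerset, ∑ C ∈ I.powerset,
        SL_w b E I F C * (((∏ e ∈ F, mm G e σ) * u σ) * ((∏ e ∈ C, dd G e η) * v η)) := by
    intro σ η
    rw [hSEXP V ι G b E I hb hI σ η, Finset.sum_mul]
    refine Finset.sum_congr rfl fun F _ => ?_
    rw [Finset.sum_mul]
    refine Finset.sum_congr rfl fun C _ => ?_
    unfold SL_w
    ring
  have h2 : ∀ F C : Finset ι, SL_w b E I F C * (SL_U G F u * KK G C v) =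
      ∑ σ : V → Bool, ∑ η : V → Bool,
        SL_w b E I F C * (((∏ e ∈ F, mm G e σ) * u σ) * ((∏ e ∈ C, dd G e η) * v η)) := by
    intro F C
    unfold SL_U KK
    rw [Finset.sum_mul_sum, Finset.mul_sum]
    exact Finset.sum_congr rfl fun σ _ => by rw [Finset.mul_sum]
  simp only [h1, h2]
  calc _ = ∑ σ : V → Bool, ∑ F ∈ E.powerset, ∑ C ∈ I.powerset, ∑ η : V → Bool,
        SL_w b E I F C * (((∏ e ∈ F, mm G e σ) * u σ) * ((∏ e ∈ C, dd G e η) * v η)) := by
        refine Finset.sum_congr rfl fun σ _ => ?_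
        rw [Finset.sum_comm]
        exact Finset.sum_congr rfl fun F _ => Finset.sum_comm
    _ = _ := by
        rw [Finset.sum_comm]
        exact Finset.sum_congr rfl fun F _ => Finset.sum_comm

theorem SL_U_mem (G : MG V ι) (F : Finset ι) (e : ι) (he : e ∈ F) (u : (V → Bool) → ℝ) :
    SL_U G F (fun σ => u σ * mm G e σ) = SL_U G (F.erase e) u := by
  unfold SL_U
  refine Finset.sum_congr rfl fun σ _ => ?_
  rw [← Finset.mul_prod_erase _ _ he]
  have := mm_sq G e σ
  calc _ = (mm G e σ * mm G e σ) * ((∏ x ∈ F.erase e, mm G x σ) * u σ) := by ring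
    _ = _ := by rw [this, one_mul]

theorem SL_U_not (G : MG V ι) (F : Finset ι) (e : ι) (he : e ∉ F) (u : (V → Bool) → ℝ) :
    SL_U G F (fun σ => u σ * mm G e σ) = SL_U G (insert e F) u := by
  unfold SL_U
  refine Finset.sum_congr rfl fun σ _ => ?_
  rw [Finset.prod_insert he]
  ring

theorem SL_U_nonneg (G : MG V ι) (F : Finset ι) (u : (V → Bool) → ℝ) (hu : Ch u) : 0 ≤ SL_U G F u :=
  sum_char_nonneg _ (Ch_mul (Ch_prod G F) hu)

/-- the contribution of one edge -/
theorem SL_edge (hSEXP : SEXP_stmt) (G : MG V ι) (b : ℝ) (E I : Finset ι) (hb : 0 ≤ b) (hI : I ⊆ E) (e : ι) (he : e ∈ E \ I)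
    (u v : (V → Bool) → ℝ) (hu : Ch u) (hv : Ch v) :
    ∑ F ∈ E.powerset, ∑ C ∈ I.powerset, (if e ∈ F then SL_w b E I F C * (SL_U G F u * KK G C v) else 0) ≤
    Real.tanh b * ∑ σ : V → Bool, ∑ η : V → Bool,
      Real.exp (b * ∑ e ∈ E, mm G e σ) * Real.exp (b * ∑ e ∈ I, mm G e (mc σ η)) * (u σ * mm G e σ * v η) := by
  have ht : 0 ≤ Real.tanh b := by
    rw [Real.tanh_eq_sinh_div_cosh]
    exact div_nonneg (Real.sinh_nonneg_iff.mpr hb) (Real.cosh_pos b).le
  rw [SL_expand hSEXP G b E I hb hI (fun σ => u σ * mm G e σ) v]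
  have heE : e ∈ E := (Finset.mem_sdiff.mp he).1
  have hL : ∑ F ∈ E.powerset, ∑ C ∈ I.powerset, (if e ∈ F then SL_w b E I F C * (SL_U G F u * KK G C v) else 0) =
      ∑ F ∈ E.powerset.filter (fun F => e ∈ F), ∑ C ∈ I.powerset, SL_w b E I F C * (SL_U G F u * KK G C v) := by
    rw [Finset.sum_filter]
    refine Finset.sum_congr rfl fun F _ => ?_
    split_ifs
    · rfl
    · exact Finset.sum_const_zero
  rw [hL, ← SL_sum_insert E e heE, Finset.mul_sum,
    ← Finset.sum_filter_add_sum_filter_not E.powerset (fun F => e ∉ F)]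
  have hA : ∀ F ∈ E.powerset.filter (fun F => e ∉ F), ∑ C ∈ I.powerset, SL_w b E I (insert e F) C * (SL_U G (insert e F) u * KK G C v) =
      Real.tanh b * ∑ C ∈ I.powerset, SL_w b E I F C * (SL_U G F (fun σ => u σ * mm G e σ) * KK G C v) := by
    intro F hF
    have hF' : e ∉ F := (Finset.mem_filter.mp hF).2
    rw [Finset.mul_sum]
    refine Finset.sum_congr rfl fun C _ => ?_
    rw [SL_w_insert b E I F C e he hF', SL_U_not G F e hF' u]
    ring
  rw [Finset.sum_congr rfl hA]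
  refine le_add_of_nonneg_right (Finset.sum_nonneg fun F hF => ?_)
  have hF' : e ∈ F := not_not.mp (Finset.mem_filter.mp hF).2
  refine mul_nonneg ht (Finset.sum_nonneg fun C _ => mul_nonneg (SL_w_nonneg b hb _ _ _ _) (mul_nonneg ?_ (KK_char_nonneg G C v hv)))
  rw [SL_U_mem G F e hF' u]
  exact SL_U_nonneg G _ u hu

end

theorem SL (hSEXP : SEXP_stmt) (hPAR : PAR_stmt) : SL_stmt := by
  intro V ι _ _ _ G b E S a z hb ha hz
  set I := ins G E S with hIdef
  have hIE : I ⊆ E := Finset.filter_subset _ _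
  have hZE := Zf_pos G b E
  have hZI := Zf_pos G b I
  set u : (V → Bool) → ℝ := fun σ => CU.sg (σ a) * CU.sg (σ z) with hu
  have hCu : Ch u := Ch_mul (Ch_sg a) (Ch_sg z)
  have hoS : ∀ e ∈ oS G E S, e ∈ E \ I := by
    intro e he
    unfold oS at he
    rw [Finset.mem_filter] at he
    rw [Finset.mem_sdiff, hIdef]
    refine ⟨he.1, fun h => ?_⟩
    unfold ins at h
    exact he.2.2 (Finset.mem_filter.mp h).2.2
  have hoT : ∀ e ∈ oT G E S, e ∈ E \ I := by
    intro e he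
    unfold oT at he
    rw [Finset.mem_filter] at he
    rw [Finset.mem_sdiff, hIdef]
    refine ⟨he.1, fun h => ?_⟩
    unfold ins at h
    exact he.2.2 (Finset.mem_filter.mp h).2.1
  -- the products
  have hP1 : ∀ e : ι, Zf G b E (fun σ => CU.sg (σ (G.t e)) * CU.sg (σ z)) * Zf G b I (fun σ => CU.sg (σ a) * CU.sg (σ (G.s e))) =
      ∑ σ : V → Bool, ∑ η : V → Bool, Real.exp (b * ∑ e ∈ E, mm G e σ) * Real.exp (b * ∑ e ∈ I, mm G e (mc σ η)) *
        (u σ * mm G e σ * (CU.sg (η a) * CU.sg (η (G.s e)))) := by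
    intro e
    rw [SL_prod]
    refine Finset.sum_congr rfl fun σ _ => Finset.sum_congr rfl fun η _ => ?_
    congr 1
    rw [sg_mc, sg_mc]
    simp only [hu, mm]
    ring
  have hP2 : ∀ e : ι, Zf G b E (fun σ => CU.sg (σ (G.s e)) * CU.sg (σ z)) * Zf G b I (fun σ => CU.sg (σ a) * CU.sg (σ (G.t e))) =
      ∑ σ : V → Bool, ∑ η : V → Bool, Real.exp (b * ∑ e ∈ E, mm G e σ) * Real.exp (b * ∑ e ∈ I, mm G e (mc σ η)) *
        (u σ * mm G e σ * (CU.sg (η a) * CU.sg (η (G.t e)))) := by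
    intro e
    rw [SL_prod]
    refine Finset.sum_congr rfl fun σ _ => Finset.sum_congr rfl fun η _ => ?_
    congr 1
    rw [sg_mc, sg_mc]
    simp only [hu, mm]
    ring
  have hP0 : Zf G b E u * Zf G b I (fun _ => 1) =
      ∑ F ∈ E.powerset, ∑ C ∈ I.powerset, SL_w b E I F C * (SL_U G F u * KN G C) := by
    rw [SL_prod]
    exact SL_expand hSEXP G b E I hb hIE u (fun _ => 1)
  -- the key inequality
  have key : Zf G b E u * Zf G b I (fun _ => 1) ≤
      ∑ e ∈ oS G E S, Real.tanh b * (Zf G b E (fun σ => CU.sg (σ (G.t e)) * CU.sg (σ z)) * Zf G b I (fun σ => CU.sg (σ a) * CU.sg (σ (G.s e)))) +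
      ∑ e ∈ oT G E S, Real.tanh b * (Zf G b E (fun σ => CU.sg (σ (G.s e)) * CU.sg (σ z)) * Zf G b I (fun σ => CU.sg (σ a) * CU.sg (σ (G.t e)))) := by
    have h1 : ∑ e ∈ oS G E S, ∑ F ∈ E.powerset, ∑ C ∈ I.powerset, (if e ∈ F then SL_w b E I F C *
        (SL_U G F u * KK G C (fun η => CU.sg (η a) * CU.sg (η (G.s e)))) else 0) ≤
        ∑ e ∈ oS G E S, Real.tanh b * (Zf G b E (fun σ => CU.sg (σ (G.t e)) * CU.sg (σ z)) * Zf G b I (fun σ => CU.sg (σ a) * CU.sg (σ (G.s e)))) := by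
      refine Finset.sum_le_sum fun e he => ?_
      rw [hP1 e]
      exact SL_edge hSEXP G b E I hb hIE e (hoS e he) u (fun η => CU.sg (η a) * CU.sg (η (G.s e))) hCu (Ch_mul (Ch_sg a) (Ch_sg _))
    have h2 : ∑ e ∈ oT G E S, ∑ F ∈ E.powerset, ∑ C ∈ I.powerset, (if e ∈ F then SL_w b E I F C *
        (SL_U G F u * KK G C (fun η => CU.sg (η a) * CU.sg (η (G.t e)))) else 0) ≤
        ∑ e ∈ oT G E S, Real.tanh b * (Zf G b E (fun σ => CU.sg (σ (G.s e)) * CU.sg (σ z)) * Zf G b I (fun σ => CU.sg (σ a) * CU.sg (σ (G.t e)))) := by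
      refine Finset.sum_le_sum fun e he => ?_
      rw [hP2 e]
      exact SL_edge hSEXP G b E I hb hIE e (hoT e he) u (fun η => CU.sg (η a) * CU.sg (η (G.t e))) hCu (Ch_mul (Ch_sg a) (Ch_sg _))
    refine le_trans ?_ (add_le_add h1 h2)
    rw [hP0]
    have hswap : ∀ (T : Finset ι) (x : ι → V), ∑ e ∈ T, ∑ F ∈ E.powerset, ∑ C ∈ I.powerset, (if e ∈ F then SL_w b E I F C *
        (SL_U G F u * KK G C (fun η => CU.sg (η a) * CU.sg (η (x e)))) else 0) =
        ∑ F ∈ E.powerset, ∑ C ∈ I.powerset, SL_w b E I F C * (SL_U G F u * ∑ e ∈ F ∩ T, KK G C (fun η => CU.sg (η a) * CU.sg (η (x e)))) := by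
      intro T x
      rw [Finset.sum_comm]
      refine Finset.sum_congr rfl fun F _ => ?_
      rw [Finset.sum_comm]
      refine Finset.sum_congr rfl fun C _ => ?_
      rw [Finset.inter_comm, ← Finset.filter_mem_eq_inter, Finset.sum_filter, Finset.mul_sum, Finset.mul_sum]
      refine Finset.sum_congr rfl fun e _ => ?_
      split_ifs <;> ring
    rw [hswap _ G.s, hswap _ G.t, ← Finset.sum_add_distrib]
    refine Finset.sum_le_sum fun F hF => ?_
    rw [← Finset.sum_add_distrib]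
    refine Finset.sum_le_sum fun C hC => ?_
    by_cases hFC : F ∩ I ⊆ C
    · have hp := hPAR V ι G E F C S a z ha hz (Finset.mem_powerset.mp hF) (Finset.mem_powerset.mp hC) hFC
      have hw := SL_w_nonneg b hb E I F C
      have := mul_nonneg hw hp
      have hUe : (∑ σ : V → Bool, (∏ e ∈ F, mm G e σ) * (CU.sg (σ a) * CU.sg (σ z))) = SL_U G F u := rfl
      rw [hUe] at this
      nlinarith [this]
    · rw [SL_w_zero b E I F C hFC]
      simp
  -- conclusion
  have hE0 := hZE.ne'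
  have hI0 := hZI.ne'
  have e0 : cor G b E a z = Zf G b E u * Zf G b I (fun _ => 1) / (Zf G b E (fun _ => 1) * Zf G b I (fun _ => 1)) := by
    unfold cor mf
    rw [mul_div_mul_right _ _ hI0]
  have e1 : Real.tanh b * (∑ e ∈ oS G E S, cor G b I a (G.s e) * cor G b E (G.t e) z +
      ∑ e ∈ oT G E S, cor G b I a (G.t e) * cor G b E (G.s e) z) =
      (∑ e ∈ oS G E S, Real.tanh b * (Zf G b E (fun σ => CU.sg (σ (G.t e)) * CU.sg (σ z)) * Zf G b I (fun σ => CU.sg (σ a) * CU.sg (σ (G.s e)))) +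
      ∑ e ∈ oT G E S, Real.tanh b * (Zf G b E (fun σ => CU.sg (σ (G.s e)) * CU.sg (σ z)) * Zf G b I (fun σ => CU.sg (σ a) * CU.sg (σ (G.t e))))) /
        (Zf G b E (fun _ => 1) * Zf G b I (fun _ => 1)) := by
    rw [mul_add, add_div, Finset.mul_sum, Finset.mul_sum, Finset.sum_div, Finset.sum_div]
    congr 1
    · refine Finset.sum_congr rfl fun e _ => ?_
      unfold cor mf
      field_simp
    · refine Finset.sum_congr rfl fun e _ => ?_
      unfold cor mf
      field_simp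
  rw [e0, e1]
  exact div_le_div_of_nonneg_right key (mul_pos hZE hZI).le

end CS
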